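import Mathlib

/-! Definitions for MP_d44cd8 : metric analogs and quasimetrizable spaces. -/

open Set Filter Topology

universe u v

namespace V11196.MA

/-- A quasimetric (no symmetry). -/
structure IsQuasimetric {X : Type u} (d : X → X → ℝ) : Prop where
  nonneg : ∀ x y, 0 ≤ d x y
  self : ∀ x, d x x = 0
  triangle : ∀ x y z, d x z ≤ d x y + d y z

/-- The topology of `X` has the balls `{y | d x y < r}` of some quasimetric as a base. -/
def Quasimetrizable (X : Type u) [TopologicalSpace X] : Prop :=
  ∃ d : X → X → ℝ, IsQuasimetric d ∧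
    TopologicalSpace.IsTopologicalBasis {B : Set X | ∃ x r, 0 < r ∧ B = {y | d x y < r}}

/-- `(M, m₀)` with `q : M → X` is a metric analog of the based space `(X, x₀)`; the test spaces
`A` range over the metric spaces in the universe `v`. -/
structure IsMetricAnalog (X : Type u) [TopologicalSpace X] (x₀ : X) (M : Type u) [MetricSpace M]
    (m₀ : M) (q : M → X) : Prop where
  base : q m₀ = x₀
  quot : IsOpenQuotientMap q
  lift : ∀ (A : Type v) [MetricSpace A] (a₀ : A) (f : A → X), Continuous f → f a₀ = x₀ →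
    ∃ g : A → M, Continuous g ∧ g a₀ = m₀ ∧ ∀ a, q (g a) = f a
  homotopy : ∀ (A : Type v) [MetricSpace A] (a₀ : A) (f g : A → M), Continuous f →
    Continuous g → f a₀ = m₀ → g a₀ = m₀ → (∀ a, q (f a) = q (g a)) →
    ∃ F : A × unitInterval → M, Continuous F ∧ (∀ a, F (a, 0) = f a) ∧ (∀ a, F (a, 1) = g a) ∧
      (∀ s, F (a₀, s) = m₀) ∧ ∀ a s, q (F (a, s)) = q (f a)

/-- The based space `(X, x₀)` has a metric analog. -/
def HasMetricAnalog (X : Type u) [TopologicalSpace X] (x₀ : X) : Prop :=
  ∃ (M : Type u) (_ : MetricSpace M) (m₀ : M) (q : M → X), IsMetricAnalog.{u, v} X x₀ M m₀ q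

end V11196.MA
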