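import Pool.Agent.V11196.MA.Local

/-! Lifting and homotopy for the analog of a locally quasimetrizable space. -/

open Set Filter Topology
open scoped ENNReal

universe u v

namespace V11196.MA

noncomputable section

variable {X : Type u} [TopologicalSpace X] {I : Type u} (L : LQ X I)

section lift
variable {A : Type v} [MetricSpace A] (f : A → X)

open Classical in
/-- target upper bound -/
def hh (j : I × ℕ × X) (a : A) : ℝ :=
  if f a ∈ L.U j.1 ∧ j.2.2 ∈ L.U j.1 then max 0 (rr j.2.1 - L.d j.1 j.2.2 (f a)) else 0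

lemma hh_nonneg (j : I × ℕ × X) (a : A) : 0 ≤ hh L f j a := by
  unfold hh
  split_ifs
  · exact le_max_left _ _
  · exact le_rfl

lemma hh_pos {j : I × ℕ × X} {a : A} (h : 0 < hh L f j a) :
    f a ∈ L.U j.1 ∧ j.2.2 ∈ L.U j.1 ∧ hh L f j a + L.d j.1 j.2.2 (f a) = rr j.2.1 := by
  unfold hh at h ⊢
  split_ifs at h with h1
  · rw [if_pos h1]
    refine ⟨h1.1, h1.2, ?_⟩
    rcases lt_max_iff.mp h with h2 | h2
    · exact absurd h2 (lt_irrefl _)
    · rw [max_eq_right h2.le]; ring
  · exact absurd h (lt_irrefl _)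

/-- Lipschitz regularisation -/
def reg (j : I × ℕ × X) (a : A) : ℝ := ⨅ b, (hh L f j b + dist a b)

lemma reg_bdd (j : I × ℕ × X) (a : A) : BddBelow (range fun b => hh L f j b + dist a b) :=
  ⟨0, by rintro _ ⟨b, rfl⟩; exact add_nonneg (hh_nonneg L f j b) dist_nonneg⟩

lemma reg_le (j : I × ℕ × X) (a : A) : reg L f j a ≤ hh L f j a := by
  have := ciInf_le (reg_bdd L f j a) a
  simpa [reg] using this

lemma reg_nonneg (j : I × ℕ × X) (a : A) : 0 ≤ reg L f j a := by
  have : Nonempty A := ⟨a⟩
  exact le_ciInf fun b => add_nonneg (hh_nonneg L f j b) dist_nonneg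

lemma reg_lip (j : I × ℕ × X) (a b : A) : reg L f j a ≤ reg L f j b + dist a b := by
  have : Nonempty A := ⟨a⟩
  rw [← sub_le_iff_le_add]
  apply le_ciInf
  intro c
  rw [sub_le_iff_le_add]
  refine (ciInf_le (reg_bdd L f j a) c).trans ?_
  have := dist_triangle a b c
  linarith

lemma reg_pos (hf : Continuous f) {j : I × ℕ × X} {a : A} (h : 0 < hh L f j a) :
    0 < reg L f j a := by
  have : Nonempty A := ⟨a⟩
  obtain ⟨h1, h2, h3⟩ := hh_pos L f h
  set c := hh L f j a with hc
  -- near `a` the function is at least `c/2`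
  have hev : ∀ᶠ b in 𝓝 a, c / 2 ≤ hh L f j b := by
    have h4 : ∀ᶠ y in 𝓝 (f a), y ∈ L.U j.1 ∧ L.d j.1 (f a) y < c / 2 :=
      L.nhd j.1 (f a) h1 (c / 2) (by positivity)
    filter_upwards [hf.continuousAt.eventually h4] with b hb
    have h5 := L.triangle j.1 j.2.2 (f a) (f b) h2 h1 hb.1
    unfold hh
    rw [if_pos ⟨hb.1, h2⟩]
    apply le_max_of_le_right
    linarith [hb.2]
  obtain ⟨δ, hδ, hball⟩ := Metric.eventually_nhds_iff.mp hev
  have h6 : min (c / 2) δ ≤ reg L f j a := by
    apply le_ciInf
    intro b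
    by_cases hb : dist b a < δ
    · have := hball hb
      have h7 := min_le_left (c / 2) δ
      have h8 : 0 ≤ dist a b := dist_nonneg
      linarith
    · push Not at hb
      rw [dist_comm] at hb
      have h7 := min_le_right (c / 2) δ
      have h8 := hh_nonneg L f j b
      linarith
  exact lt_of_lt_of_le (lt_min (by positivity) hδ) h6

end lift

variable [T0Space X]

lemma exists_lift {A : Type v} [MetricSpace A] (a₀ : A) (f : A → X) (hf : Continuous f)
    (i₀ : I) (h₀ : f a₀ ∈ L.U i₀) :
    ∃ g : A → MM L, Continuous g ∧ g a₀ = ⟨(f a₀, base0 i₀ (f a₀)), good_base0 L h₀⟩ ∧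
      ∀ a, qq L (g a) = f a := by
  classical
  -- partition of unity
  obtain ⟨ρ, hρ⟩ := PartitionOfUnity.exists_isSubordinate (s := (univ : Set A)) isClosed_univ
    (fun i => f ⁻¹' (L.U i)) (fun i => (L.isOpen i).preimage hf) (by
      intro a _
      obtain ⟨i, hi⟩ := L.cover (f a)
      exact mem_iUnion.mpr ⟨i, hi⟩)
  have hρU : ∀ i a, 0 < ρ i a → f a ∈ L.U i := by
    intro i a h
    exact hρ i (subset_tsupport _ (by rw [Function.mem_support]; exact h.ne'))
  -- slopes at the base point
  have hC : ∀ n : ℕ, ∃ C : ℝ, 0 < C ∧ ∀ a, 0 < rr n / 2 - C * dist a a₀ →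
      f a ∈ L.U i₀ ∧ L.d i₀ (f a₀) (f a) < rr n / 2 := by
    intro n
    have h1 : ∀ᶠ a in 𝓝 a₀, f a ∈ L.U i₀ ∧ L.d i₀ (f a₀) (f a) < rr n / 2 :=
      hf.continuousAt.eventually (L.nhd i₀ (f a₀) h₀ (rr n / 2) (by have := rr_pos n; positivity))
    obtain ⟨δ, hδ, hball⟩ := Metric.eventually_nhds_iff.mp h1
    refine ⟨rr n / δ, by have := rr_pos n; positivity, fun a ha => hball ?_⟩
    have h2 := rr_pos n
    have h3 : rr n / δ * dist a a₀ < rr n / 2 := by linarith
    rw [div_mul_eq_mul_div, div_lt_iff₀ hδ] at h3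
    have h4 : rr n * dist a a₀ < rr n * (δ / 2) := by linarith
    have h5 := lt_of_mul_lt_mul_left h4 h2.le
    linarith
  choose C hC0 hCs using hC
  let w : I × ℕ × X → A → ℝ := fun j a => min (ρ j.1 a) (reg L f j a)
  let t : A → I × ℕ × X → ℝ := fun a j =>
    if j.1 = i₀ ∧ j.2.2 = f a₀ then
      max (min (w j a) (rr j.2.1 / 2)) (rr j.2.1 / 2 - C j.2.1 * dist a a₀)
    else min (w j a) (dist a a₀)
  have hw0 : ∀ j a, 0 ≤ w j a := fun j a => le_min (ρ.nonneg j.1 a) (reg_nonneg L f j a)
  have hw1 : ∀ j a, w j a ≤ 1 := fun j a => (min_le_left _ _).trans (ρ.le_one j.1 a)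
  have hwb : ∀ j a, 0 < w j a → f a ∈ L.U j.1 ∧ j.2.2 ∈ L.U j.1 ∧
      w j a + L.d j.1 j.2.2 (f a) ≤ rr j.2.1 := by
    intro j a h
    have h1 : w j a ≤ hh L f j a := (min_le_right _ _).trans (reg_le L f j a)
    obtain ⟨h2, h3, h4⟩ := hh_pos L f (h.trans_le h1)
    exact ⟨h2, h3, by linarith⟩
  have ht0 : ∀ a j, 0 ≤ t a j := by
    intro a j
    simp only [t]
    split_ifs
    · exact le_max_of_le_left (le_min (hw0 j a) (by have := rr_pos j.2.1; positivity))
    · exact le_min (hw0 j a) dist_nonneg
  have ht1 : ∀ a j, |t a j| ≤ 1 := by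
    intro a j
    rw [abs_of_nonneg (ht0 a j)]
    simp only [t]
    have h1 := rr_pos j.2.1
    have h2 := rr_le_one j.2.1
    split_ifs
    · apply max_le
      · exact (min_le_left _ _).trans (hw1 j a)
      · have : 0 ≤ C j.2.1 * dist a a₀ := mul_nonneg (hC0 _).le dist_nonneg
        linarith
    · exact (min_le_left _ _).trans (hw1 j a)
  have hgood : ∀ a, Good L (f a) (mkLL (t a) (ht1 a)) := by
    intro a
    refine ⟨fun j => ht0 a j, ?_, ?_, ?_⟩
    · intro i n x h
      rw [mkLL_apply] at h ⊢
      simp only [t] at h ⊢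
      split_ifs at h ⊢ with h1
      · obtain ⟨h2, h3⟩ := h1
        subst h2 h3
        rcases lt_max_iff.mp h with h4 | h4
        · -- first part positive
          have h5 : 0 < w (i, n, f a₀) a := (lt_min_iff.mp h4).1
          obtain ⟨h6, h7, h8⟩ := hwb _ _ h5
          refine ⟨h6, h7, ?_⟩
          simp only at h8
          rcases max_cases (min (w (i, n, f a₀) a) (rr n / 2)) (rr n / 2 - C n * dist a a₀) with
            h9 | h9
          · rw [h9.1]
            have := min_le_left (w (i, n, f a₀) a) (rr n / 2)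
            linarith
          · rw [h9.1]
            have h10 : 0 < rr n / 2 - C n * dist a a₀ := by
              have h11 : 0 < min (w (i, n, f a₀) a) (rr n / 2) := h4
              linarith [h9.2]
            have h12 := (hCs n a h10).2
            have : 0 ≤ C n * dist a a₀ := mul_nonneg (hC0 _).le dist_nonneg
            linarith
        · obtain ⟨h5, h6⟩ := hCs n a h4
          refine ⟨h5, h₀, ?_⟩
          have h7 : max (min (w (i, n, f a₀) a) (rr n / 2)) (rr n / 2 - C n * dist a a₀)
              ≤ rr n / 2 := by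
            apply max_le (min_le_right _ _)
            have : 0 ≤ C n * dist a a₀ := mul_nonneg (hC0 _).le dist_nonneg
            linarith
          linarith
      · have h5 : 0 < w (i, n, x) a := (lt_min_iff.mp h).1
        obtain ⟨h6, h7, h8⟩ := hwb _ _ h5
        refine ⟨h6, h7, ?_⟩
        have := min_le_left (w (i, n, x) a) (dist a a₀)
        simp only at h8
        linarith
    · by_cases ha : a = a₀
      · refine ⟨i₀, fun n => ⟨f a₀, ?_, ?_⟩⟩
        · rw [mkLL_apply]
          simp only [t, and_self, if_true]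
          apply lt_max_of_lt_right
          rw [ha, dist_self, mul_zero, sub_zero]
          have := rr_pos n
          positivity
        · rw [ha, L.self]; exact rr_pos n
      · have hda : 0 < dist a a₀ := dist_pos.mpr ha
        obtain ⟨i, hi⟩ := ρ.exists_pos (mem_univ a)
        have hfi := hρU i a hi
        refine ⟨i, fun n => ⟨f a, ?_, by rw [L.self]; exact rr_pos n⟩⟩
        have h1 : hh L f (i, n, f a) a = rr n := by
          unfold hh
          rw [if_pos ⟨hfi, hfi⟩]
          simp only
          rw [L.self, sub_zero, max_eq_right (rr_pos n).le]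
        have h2 : 0 < reg L f (i, n, f a) a := reg_pos L f hf (by rw [h1]; exact rr_pos n)
        have h3 : 0 < w (i, n, f a) a := lt_min hi h2
        rw [mkLL_apply]
        simp only [t]
        split_ifs
        · apply lt_max_of_lt_left
          exact lt_min h3 (by have := rr_pos n; positivity)
        · exact lt_min h3 hda
    · intro ε hε
      have hfin := ρ.locallyFinite.point_finite a
      apply (hfin.insert i₀).subset
      rintro i ⟨n, x, h⟩
      rw [mkLL_apply] at h
      simp only [t] at h
      split_ifs at h with h1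
      · exact Or.inl h1.1
      · right
        have h2 : 0 < w (i, n, x) a := (lt_min_iff.mp (hε.trans h)).1
        have h3 : 0 < ρ i a := (lt_min_iff.mp h2).1
        exact h3.ne'
  refine ⟨fun a => ⟨(f a, mkLL (t a) (ht1 a)), hgood a⟩, ?_, ?_, fun a => rfl⟩
  · rw [continuous_toMM]
    change Continuous fun a => mkLL (t a) (ht1 a)
    rw [continuous_iff_continuousAt]
    intro a
    rw [ContinuousAt, Metric.tendsto_nhds]
    intro ε hε
    obtain ⟨N, hN⟩ := exists_rr_lt (show 0 < ε / 2 by positivity)
    obtain ⟨O, hO, hOfin⟩ := ρ.locallyFinite a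
    have e1 : ∀ᶠ b in 𝓝 a, b ∈ O := hO
    have e2 : ∀ᶠ b in 𝓝 a, ∀ i ∈ {i | (Function.support (ρ i) ∩ O).Nonempty},
        |ρ i b - ρ i a| < ε / 2 := by
      rw [hOfin.eventually_all]
      intro i _
      have := (ρ i).continuous.tendsto a
      rw [Metric.tendsto_nhds] at this
      exact this (ε / 2) (by positivity)
    have e3 : ∀ᶠ b in 𝓝 a, dist b a < ε / 2 := Metric.ball_mem_nhds a (by positivity)
    have e4 : ∀ᶠ b in 𝓝 a, ∀ n ∈ Finset.range N, C n * dist b a < ε / 2 := by
      rw [Filter.eventually_all_finset]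
      intro n _
      have hc : Continuous fun b => C n * dist b a := by fun_prop
      have := hc.tendsto a
      simp only [dist_self, mul_zero] at this
      exact this.eventually (gt_mem_nhds (by positivity))
    filter_upwards [e1, e2, e3, e4] with b hb1 hb2 hb3 hb4
    -- estimate of `w`
    have haO : a ∈ O := mem_of_mem_nhds hO
    have hw : ∀ j, |w j b - w j a| ≤ ε / 2 := by
      intro j
      have h1 : |ρ j.1 b - ρ j.1 a| ≤ ε / 2 := by
        by_cases hj : (Function.support (ρ j.1) ∩ O).Nonempty
        · exact (hb2 j.1 hj).le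
        · have hz : ∀ c ∈ O, ρ j.1 c = 0 := by
            intro c hc
            by_contra hne
            exact hj ⟨c, hne, hc⟩
          rw [hz b hb1, hz a haO]
          simp
          positivity
      have h2 : |reg L f j b - reg L f j a| ≤ ε / 2 := by
        rw [abs_le]
        have h3 := reg_lip L f j a b
        have h4 := reg_lip L f j b a
        rw [dist_comm] at h3
        constructor <;> linarith
      exact (abs_min_sub_min_le_max _ _ _ _).trans (max_le h1 h2)
    have hdist : |dist b a₀ - dist a a₀| ≤ ε / 2 := (abs_dist_sub_le b a a₀).trans hb3.le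
    have hfinal : dist (mkLL (t b) (ht1 b)) (mkLL (t a) (ht1 a)) ≤ ε / 2 := by
      apply dist_le_of (by positivity)
      intro j
      rw [mkLL_apply, mkLL_apply]
      simp only [t]
      split_ifs with h1
      · rcases Nat.lt_or_ge j.2.1 N with hn | hn
        · refine (abs_max_sub_max_le_max _ _ _ _).trans (max_le ?_ ?_)
          · refine (abs_min_sub_min_le_max _ _ _ _).trans (max_le (hw j) ?_)
            rw [sub_self, abs_zero]; positivity
          · have h2 : rr j.2.1 / 2 - C j.2.1 * dist b a₀ - (rr j.2.1 / 2 - C j.2.1 * dist a a₀)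
                = -(C j.2.1 * (dist b a₀ - dist a a₀)) := by ring
            rw [h2, abs_neg, abs_mul, abs_of_pos (hC0 _)]
            have h3 := hb4 j.2.1 (Finset.mem_range.mpr hn)
            have h4 : |dist b a₀ - dist a a₀| ≤ dist b a := abs_dist_sub_le b a a₀
            have h5 := mul_le_mul_of_nonneg_left h4 (hC0 j.2.1).le
            linarith
        · have h2 := rr_anti hn
          have hb' := ht0 b j
          have ha' := ht0 a j
          simp only [t] at hb' ha'
          rw [if_pos h1] at hb' ha'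
          have h3 : ∀ c : A, max (min (w j c) (rr j.2.1 / 2)) (rr j.2.1 / 2 - C j.2.1 * dist c a₀)
              ≤ rr j.2.1 / 2 := by
            intro c
            apply max_le (min_le_right _ _)
            have : 0 ≤ C j.2.1 * dist c a₀ := mul_nonneg (hC0 _).le dist_nonneg
            linarith
          have h4 := h3 a
          have h5 := h3 b
          rw [abs_le]
          constructor <;> linarith
      · exact (abs_min_sub_min_le_max _ _ _ _).trans (max_le (hw j) hdist)
    exact hfinal.trans_lt (by linarith)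
  · apply Subtype.ext
    apply Prod.ext
    · rfl
    · change mkLL (t a₀) (ht1 a₀) = base0 i₀ (f a₀)
      apply Subtype.ext
      funext j
      change t a₀ j = spike i₀ (f a₀) 1 j
      simp only [t, spike, dist_self, mul_zero, sub_zero]
      split_ifs
      · rw [max_eq_right (min_le_right _ _), min_eq_right]
        have := rr_le_one j.2.1
        linarith
      · exact min_eq_right (hw0 j a₀)

omit [T0Space X] in
lemma good_comb {y : X} {t t' : LL X I} (h : Good L y t) (h' : Good L y t') {s : ℝ} (hs0 : 0 ≤ s)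
    (hs1 : s ≤ 1) : Good L y ((1 - s) • t + s • t') := by
  have happ : ∀ j, ((1 - s) • t + s • t') j = (1 - s) * t j + s * t' j := fun j => rfl
  refine ⟨fun j => ?_, ?_, ?_, ?_⟩
  · rw [happ]
    exact add_nonneg (mul_nonneg (by linarith) (h.nonneg j)) (mul_nonneg hs0 (h'.nonneg j))
  · intro i n x hp
    rw [happ] at hp ⊢
    have h1 := h.nonneg (i, n, x)
    have h2 := h'.nonneg (i, n, x)
    have h3 : (1 - s) * t (i, n, x) + s * t' (i, n, x) ≤ max (t (i, n, x)) (t' (i, n, x)) := by
      have h4 := mul_le_mul_of_nonneg_left (le_max_left (t (i, n, x)) (t' (i, n, x)))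
        (show 0 ≤ 1 - s by linarith)
      have h5 := mul_le_mul_of_nonneg_left (le_max_right (t (i, n, x)) (t' (i, n, x))) hs0
      linarith
    rcases max_cases (t (i, n, x)) (t' (i, n, x)) with h6 | h6
    · rw [h6.1] at h3
      obtain ⟨h7, h8, h9⟩ := h.bound i n x (by linarith)
      exact ⟨h7, h8, by linarith⟩
    · rw [h6.1] at h3
      obtain ⟨h7, h8, h9⟩ := h'.bound i n x (by linarith)
      exact ⟨h7, h8, by linarith⟩
  · rcases hs1.lt_or_eq with h1 | h1
    · obtain ⟨i, hi⟩ := h.exi
      refine ⟨i, fun n => ?_⟩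
      obtain ⟨x, hx, hd⟩ := hi n
      refine ⟨x, ?_, hd⟩
      rw [happ]
      have h2 : 0 < (1 - s) * t (i, n, x) := mul_pos (by linarith) hx
      have h3 := mul_nonneg hs0 (h'.nonneg (i, n, x))
      linarith
    · obtain ⟨i, hi⟩ := h'.exi
      refine ⟨i, fun n => ?_⟩
      obtain ⟨x, hx, hd⟩ := hi n
      refine ⟨x, ?_, hd⟩
      rw [happ, h1]
      simpa using hx
  · intro ε hε
    apply ((h.fin ε hε).union (h'.fin ε hε)).subset
    rintro i ⟨n, x, hp⟩
    rw [happ] at hp
    have h3 : (1 - s) * t (i, n, x) + s * t' (i, n, x) ≤ max (t (i, n, x)) (t' (i, n, x)) := by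
      have h4 := mul_le_mul_of_nonneg_left (le_max_left (t (i, n, x)) (t' (i, n, x)))
        (show 0 ≤ 1 - s by linarith)
      have h5 := mul_le_mul_of_nonneg_left (le_max_right (t (i, n, x)) (t' (i, n, x))) hs0
      linarith
    rcases lt_max_iff.mp (hp.trans_le h3) with h6 | h6
    · exact Or.inl ⟨n, x, h6⟩
    · exact Or.inr ⟨n, x, h6⟩

/-- Locally quasimetrizable `T₀` spaces have metric analogs. -/
theorem hasMetricAnalog_of_LQ (L : LQ X I) (x₀ : X) : HasMetricAnalog.{u, v} X x₀ := by
  obtain ⟨i₀, h₀⟩ := L.cover x₀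
  refine ⟨MM L, instMetricMM L, ⟨(x₀, base0 i₀ x₀), good_base0 L h₀⟩, qq L, rfl,
    ⟨surjective_qq L, continuous_qq L, isOpenMap_qq L⟩, ?_, ?_⟩
  · intro A _ a₀ f hf hfa
    subst hfa
    exact exists_lift L a₀ f hf i₀ h₀
  · intro A _ a₀ f g hf hg hfa hga hfg
    have hgood : ∀ (a : A) (s : unitInterval), Good L (qq L (f a))
        ((1 - (s : ℝ)) • (f a).1.2 + (s : ℝ) • (g a).1.2) := by
      intro a s
      have h1 : Good L (qq L (f a)) (f a).1.2 := (f a).2
      have h2 : Good L (qq L (f a)) (g a).1.2 := by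
        rw [hfg a]; exact (g a).2
      exact good_comb L h1 h2 s.2.1 s.2.2
    refine ⟨fun p => ⟨(qq L (f p.1), (1 - (p.2 : ℝ)) • (f p.1).1.2 + (p.2 : ℝ) • (g p.1).1.2),
      hgood p.1 p.2⟩, ?_, ?_, ?_, ?_, ?_⟩
    · rw [continuous_toMM]
      change Continuous fun p : A × unitInterval =>
        (1 - (p.2 : ℝ)) • (f p.1).1.2 + (p.2 : ℝ) • (g p.1).1.2
      rw [continuous_toMM] at hf hg
      have h1 : Continuous fun p : A × unitInterval => (f p.1).1.2 := hf.comp continuous_fst
      have h2 : Continuous fun p : A × unitInterval => (g p.1).1.2 := hg.comp continuous_fst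
      have h3 : Continuous fun p : A × unitInterval => ((p.2 : unitInterval) : ℝ) :=
        continuous_subtype_val.comp continuous_snd
      exact ((continuous_const.sub h3).smul h1).add (h3.smul h2)
    · intro a
      apply Subtype.ext
      apply Prod.ext
      · rfl
      · simp
    · intro a
      apply Subtype.ext
      apply Prod.ext
      · exact hfg a
      · simp
    · intro s
      apply Subtype.ext
      apply Prod.ext
      · change qq L (f a₀) = x₀
        rw [hfa]; rfl
      · change (1 - (s : ℝ)) • (f a₀).1.2 + (s : ℝ) • (g a₀).1.2 = base0 i₀ x₀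
        rw [hfa, hga]
        change (1 - (s : ℝ)) • base0 i₀ x₀ + (s : ℝ) • base0 i₀ x₀ = base0 i₀ x₀
        rw [← add_smul]; simp
    · intro a s
      rfl

end

end V11196.MA
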