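import Pool.Agent.V11196.MA.Defs

/-! Locally quasimetrizable `T₀` spaces have metric analogs. -/

open Set Filter Topology
open scoped ENNReal

universe u v

namespace V11196.MA

noncomputable section

/-- a cover by open sets with quasimetrics -/
structure LQ (X : Type u) [TopologicalSpace X] (I : Type u) where
  U : I → Set X
  d : I → X → X → ℝ
  isOpen : ∀ i, IsOpen (U i)
  cover : ∀ x, ∃ i, x ∈ U i
  nonneg : ∀ i x y, 0 ≤ d i x y
  self : ∀ i x, d i x x = 0
  triangle : ∀ i x y z, x ∈ U i → y ∈ U i → z ∈ U i → d i x z ≤ d i x y + d i y z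
  nhd : ∀ i x, x ∈ U i → ∀ r > 0, {y | y ∈ U i ∧ d i x y < r} ∈ 𝓝 x
  base : ∀ i x, x ∈ U i → ∀ V ∈ 𝓝 x, ∃ r > 0, {y | y ∈ U i ∧ d i x y < r} ⊆ V

/-- radii -/
def rr (n : ℕ) : ℝ := (1 / 2) ^ n

lemma rr_pos (n : ℕ) : 0 < rr n := by unfold rr; positivity

lemma rr_le_one (n : ℕ) : rr n ≤ 1 := by
  unfold rr
  exact pow_le_one₀ (by norm_num) (by norm_num)

lemma rr_anti {m n : ℕ} (h : m ≤ n) : rr n ≤ rr m := by
  unfold rr
  exact pow_le_pow_of_le_one (by norm_num) (by norm_num) h

lemma exists_rr_lt {ε : ℝ} (hε : 0 < ε) : ∃ n, rr n < ε :=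
  exists_pow_lt_of_lt_one hε (by norm_num)

variable {X : Type u} [TopologicalSpace X] {I : Type u}

/-- bounded families indexed by `I × ℕ × X` -/
abbrev LL (X I : Type u) := lp (fun _ : I × ℕ × X => ℝ) ∞

/-- make an element of `LL` -/
def mkLL (f : I × ℕ × X → ℝ) (h : ∀ j, |f j| ≤ 1) : LL X I :=
  ⟨f, memℓp_infty ⟨1, by rintro _ ⟨j, rfl⟩; exact h j⟩⟩

omit [TopologicalSpace X] in
lemma mkLL_apply (f : I × ℕ × X → ℝ) (h : ∀ j, |f j| ≤ 1) (j : I × ℕ × X) :
    mkLL f h j = f j := rfl

omit [TopologicalSpace X] in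
lemma dist_le_of {s t : LL X I} {C : ℝ} (hC : 0 ≤ C) (h : ∀ j, |s j - t j| ≤ C) :
    dist s t ≤ C := by
  rw [dist_eq_norm]
  exact lp.norm_le_of_forall_le hC h

omit [TopologicalSpace X] in
lemma abs_sub_le_dist (s t : LL X I) (j : I × ℕ × X) : |s j - t j| ≤ dist s t := by
  rw [dist_eq_norm]
  exact lp.norm_apply_le_norm (by simp) (s - t) j

/-- the pairs forming the analog -/
structure Good (L : LQ X I) (y : X) (t : LL X I) : Prop where
  nonneg : ∀ j, 0 ≤ t j
  bound : ∀ i n x, 0 < t (i, n, x) → y ∈ L.U i ∧ x ∈ L.U i ∧ t (i, n, x) + L.d i x y ≤ rr n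
  exi : ∃ i, ∀ n, ∃ x, 0 < t (i, n, x) ∧ L.d i y x < rr n
  fin : ∀ ε > 0, {i | ∃ n x, ε < t (i, n, x)}.Finite

/-- the analog -/
def MM (L : LQ X I) : Type u := {p : X × LL X I // Good L p.1 p.2}

variable (L : LQ X I)

/-- key estimate -/
lemma near {y : X} {t : LL X I} (h : Good L y t) {V : Set X} (hV : V ∈ 𝓝 y) :
    ∃ ε > 0, ∀ (y' : X) (t' : LL X I), Good L y' t' → dist t' t < ε → y' ∈ V := by
  obtain ⟨i, hi⟩ := h.exi
  obtain ⟨x0, hx0, -⟩ := hi 0
  have hyU := (h.bound i 0 x0 hx0).1
  obtain ⟨s, hs, hsV⟩ := L.base i y hyU V hV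
  obtain ⟨n, hn⟩ := exists_rr_lt (show 0 < s / 2 by positivity)
  obtain ⟨x, hx, hdx⟩ := hi n
  have hxU := (h.bound i n x hx).2.1
  refine ⟨t (i, n, x), hx, fun y' t' h' hd => hsV ?_⟩
  have h1 := abs_sub_le_dist t' t (i, n, x)
  have h2 : 0 < t' (i, n, x) := by
    have := (abs_lt.mp (h1.trans_lt hd)).1
    linarith
  obtain ⟨h3, h4, h5⟩ := h'.bound i n x h2
  refine ⟨h3, ?_⟩
  have h6 := L.triangle i y x y' hyU hxU h3
  linarith

lemma good_unique [T0Space X] {y y' : X} {t : LL X I} (h : Good L y t) (h' : Good L y' t) :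
    y = y' := by
  apply Inseparable.eq
  rw [inseparable_iff_specializes_and]
  constructor
  · rw [specializes_iff_pure, le_def]
    intro V hV
    obtain ⟨ε, hε, hh⟩ := near L h' hV
    exact hh y t h (by rw [dist_self]; exact hε)
  · rw [specializes_iff_pure, le_def]
    intro V hV
    obtain ⟨ε, hε, hh⟩ := near L h hV
    exact hh y' t h' (by rw [dist_self]; exact hε)

instance instMetricMM [T0Space X] : MetricSpace (MM L) :=
  MetricSpace.induced (fun p => p.1.2) (by
    intro p p' hpp
    apply Subtype.ext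
    have h1 := p.2
    have h2 := p'.2
    simp only at hpp
    rw [hpp] at h1
    exact Prod.ext (good_unique L h1 h2) hpp) inferInstance

/-- the projection -/
def qq : MM L → X := fun p => p.1.1

variable [T0Space X]

lemma dist_MM (p p' : MM L) : dist p p' = dist p.1.2 p'.1.2 := rfl

lemma continuous_snd_MM : Continuous (fun p : MM L => p.1.2) := continuous_induced_dom

lemma continuous_toMM {A : Type v} [TopologicalSpace A] {g : A → MM L} :
    Continuous g ↔ Continuous (fun a => (g a).1.2) := continuous_induced_rng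

lemma continuous_qq : Continuous (qq L) := by
  rw [continuous_iff_continuousAt]
  intro p V hV
  obtain ⟨ε, hε, hh⟩ := near L p.2 hV
  rw [mem_map, Metric.mem_nhds_iff]
  refine ⟨ε, hε, fun p' hp' => ?_⟩
  exact hh p'.1.1 p'.1.2 p'.2 hp'

open Classical in
/-- a spike at `(i₀, ·, y)` -/
def spike (i₀ : I) (y : X) (η : ℝ) : I × ℕ × X → ℝ := fun j =>
  if j.1 = i₀ ∧ j.2.2 = y then min η (rr j.2.1 / 2) else 0

omit [TopologicalSpace X] [T0Space X] in
lemma spike_nonneg (i₀ : I) (y : X) {η : ℝ} (hη : 0 ≤ η) (j : I × ℕ × X) :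
    0 ≤ spike i₀ y η j := by
  unfold spike
  split_ifs
  · exact le_min hη (by have := rr_pos j.2.1; linarith)
  · exact le_rfl

omit [TopologicalSpace X] [T0Space X] in
lemma spike_le (i₀ : I) (y : X) {η : ℝ} (hη : 0 ≤ η) (j : I × ℕ × X) :
    spike i₀ y η j ≤ η := by
  unfold spike
  split_ifs
  · exact min_le_left _ _
  · exact hη

omit [TopologicalSpace X] [T0Space X] in
lemma spike_le' (i₀ : I) (y : X) {η : ℝ} (j : I × ℕ × X) :
    spike i₀ y η j ≤ rr j.2.1 / 2 := by
  unfold spike
  split_ifs
  · exact min_le_right _ _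
  · have := rr_pos j.2.1; linarith

omit [TopologicalSpace X] [T0Space X] in
lemma spike_self (i₀ : I) (y : X) {η : ℝ} (hη : 0 < η) (n : ℕ) :
    0 < spike i₀ y η (i₀, n, y) := by
  unfold spike
  simp only [and_self, if_true]
  exact lt_min hη (by have := rr_pos n; linarith)

omit [TopologicalSpace X] [T0Space X] in
lemma spike_pos (i₀ : I) (y : X) {η : ℝ} {j : I × ℕ × X} (h : 0 < spike i₀ y η j) :
    j.1 = i₀ ∧ j.2.2 = y := by
  unfold spike at h
  by_contra hcon
  rw [if_neg hcon] at h
  exact lt_irrefl _ h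

lemma isOpenMap_qq : IsOpenMap (qq L) := by
  classical
  rw [isOpenMap_iff_nhds_le]
  intro p V hV
  rw [mem_map] at hV
  rw [Metric.mem_nhds_iff] at hV
  obtain ⟨ε, hε, hball⟩ := hV
  obtain ⟨⟨y, t⟩, hp⟩ := p
  simp only at hp
  obtain ⟨i₀, hi₀⟩ := L.cover y
  have hfin := hp.fin (ε / 2) (by positivity)
  set F := {i | ∃ n x, ε / 2 < t (i, n, x)} with hF
  set s : ℝ := ε / 4 with hs
  have hs0 : 0 < s := by positivity
  -- neighbourhood of `y`
  have hW : ∀ᶠ y' in 𝓝 y, ∀ i ∈ insert i₀ F, y' ∈ L.U i ∧ L.d i y y' < s := by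
    rw [(hfin.insert i₀).eventually_all]
    intro i hi
    have hyi : y ∈ L.U i := by
      rcases hi with rfl | ⟨n, x, h⟩
      · exact hi₀
      · exact (hp.bound i n x (by linarith)).1
    exact L.nhd i y hyi s hs0
  change V ∈ 𝓝 y
  filter_upwards [hW] with y' hy'
  -- the new family
  let f : I × ℕ × X → ℝ := fun j =>
    max (if j.1 ∈ F then max 0 (t j - s) else 0) (spike i₀ y' (ε / 2) j)
  have ht1 : ∀ j, t j ≤ 1 := by
    rintro ⟨i, n, x⟩
    by_cases h : 0 < t (i, n, x)
    · have := (hp.bound i n x h).2.2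
      have h2 := L.nonneg i x y
      have h3 := rr_le_one n
      linarith
    · linarith
  have hf0 : ∀ j, 0 ≤ f j := fun j => le_max_of_le_right (spike_nonneg i₀ y' (by positivity) j)
  have hf1 : ∀ j, |f j| ≤ 1 := by
    intro j
    rw [abs_of_nonneg (hf0 j)]
    apply max_le
    · split_ifs
      · exact max_le zero_le_one (by linarith [ht1 j])
      · exact zero_le_one
    · have := spike_le' i₀ y' (η := ε / 2) j
      have h2 := rr_le_one j.2.1
      linarith
  set t' : LL X I := mkLL f hf1 with ht'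
  have happ : ∀ j, t' j = f j := fun j => rfl
  have hgood : Good L y' t' := by
    refine ⟨fun j => by rw [happ]; exact hf0 j, ?_, ?_, ?_⟩
    · intro i n x h
      rw [happ] at h ⊢
      rcases lt_max_iff.mp h with h1 | h1
      · split_ifs at h1 with hiF
        · have h2 : 0 < t (i, n, x) - s := by
            rcases lt_max_iff.mp h1 with h3 | h3
            · exact absurd h3 (lt_irrefl _)
            · exact h3
          obtain ⟨h3, h4, h5⟩ := hp.bound i n x (by linarith)
          obtain ⟨h6, h7⟩ := hy' i (mem_insert_of_mem _ hiF)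
          refine ⟨h6, h4, ?_⟩
          have h8 := L.triangle i x y y' h4 h3 h6
          have h9 := spike_le' i₀ y' (η := ε / 2) (i, n, x)
          by_cases h10 : 0 < spike i₀ y' (ε / 2) (i, n, x)
          · obtain ⟨h11, h12⟩ := spike_pos i₀ y' h10
            simp only at h11 h12
            subst h12
            rw [L.self, add_zero]
            apply max_le
            · rw [if_pos hiF]
              apply max_le (rr_pos n).le
              have := L.nonneg i x y
              linarith
            · have := rr_pos n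
              simp only at h9
              linarith
          · push Not at h10
            have h11 : f (i, n, x) ≤ t (i, n, x) - s := by
              apply max_le
              · rw [if_pos hiF]; exact max_le h2.le le_rfl
              · linarith
            linarith
        · exact absurd h1 (lt_irrefl _)
      · obtain ⟨h11, h12⟩ := spike_pos i₀ y' h1
        simp only at h11 h12
        subst h11 h12
        obtain ⟨h6, h7⟩ := hy' i (mem_insert _ _)
        refine ⟨h6, h6, ?_⟩
        rw [L.self, add_zero]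
        apply max_le
        · split_ifs
          · apply max_le (rr_pos n).le
            by_cases h13 : 0 < t (i, n, x)
            · have := (hp.bound i n x h13).2.2
              have := L.nonneg i x y
              linarith
            · have := rr_pos n
              linarith
          · exact (rr_pos n).le
        · have := spike_le' i x (η := ε / 2) (i, n, x)
          have h3 := rr_pos n
          simp only at this
          linarith
    · refine ⟨i₀, fun n => ⟨y', ?_, ?_⟩⟩
      · rw [happ]
        exact lt_max_of_lt_right (spike_self i₀ y' (by positivity) n)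
      · rw [L.self]; exact rr_pos n
    · intro δ hδ
      apply (hfin.insert i₀).subset
      rintro i ⟨n, x, h⟩
      rw [happ] at h
      rcases lt_max_iff.mp h with h1 | h1
      · split_ifs at h1 with hiF
        · exact mem_insert_of_mem _ hiF
        · linarith
      · left
        exact (spike_pos i₀ y' (hδ.trans h1)).1
  have hd : dist t' t ≤ ε / 2 := by
    apply dist_le_of (by positivity)
    rintro ⟨i, n, x⟩
    rw [happ]
    have h0 := hp.nonneg (i, n, x)
    have hsp := spike_le i₀ y' (show 0 ≤ ε / 2 by positivity) (i, n, x)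
    rw [abs_le]
    constructor
    · have h1 : t (i, n, x) - ε / 2 ≤ f (i, n, x) := by
        apply le_max_of_le_left
        split_ifs with hiF
        · exact le_max_of_le_right (by linarith)
        · have : ¬ ε / 2 < t (i, n, x) := fun h => hiF ⟨n, x, h⟩
          linarith
      linarith
    · have h1 : f (i, n, x) ≤ t (i, n, x) + ε / 2 := by
        apply max_le
        · split_ifs
          · exact max_le (by linarith) (by linarith)
          · linarith
        · linarith
      linarith
  have h1 : (show MM L from ⟨(y', t'), hgood⟩) ∈ Metric.ball (show MM L from ⟨(y, t), hp⟩) ε := by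
    rw [Metric.mem_ball, dist_MM]
    exact hd.trans_lt (by linarith)
  exact hball h1

/-- base point over `x₀` -/
def base0 (i₀ : I) (x₀ : X) : LL X I := mkLL (spike i₀ x₀ 1) (by
  intro j
  rw [abs_of_nonneg (spike_nonneg i₀ x₀ zero_le_one j)]
  exact spike_le i₀ x₀ zero_le_one j)

omit [T0Space X] in
lemma good_base0 {i₀ : I} {x₀ : X} (h : x₀ ∈ L.U i₀) : Good L x₀ (base0 i₀ x₀) := by
  have happ : ∀ j, base0 i₀ x₀ j = spike i₀ x₀ 1 j := fun j => rfl
  refine ⟨fun j => by rw [happ]; exact spike_nonneg i₀ x₀ zero_le_one j, ?_, ?_, ?_⟩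
  · intro i n x hh
    rw [happ] at hh ⊢
    obtain ⟨h11, h12⟩ := spike_pos i₀ x₀ hh
    simp only at h11 h12
    subst h11 h12
    refine ⟨h, h, ?_⟩
    rw [L.self, add_zero]
    have := spike_le' i x (η := 1) (i, n, x)
    have h3 := rr_pos n
    simp only at this
    linarith
  · exact ⟨i₀, fun n => ⟨x₀, by rw [happ]; exact spike_self i₀ x₀ one_pos n,
      by rw [L.self]; exact rr_pos n⟩⟩
  · intro ε hε
    apply (finite_singleton i₀).subset
    rintro i ⟨n, x, hh⟩
    rw [happ] at hh
    exact (spike_pos i₀ x₀ (hε.trans hh)).1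

lemma surjective_qq : Function.Surjective (qq L) := by
  intro y
  obtain ⟨i, hi⟩ := L.cover y
  exact ⟨⟨(y, base0 i y), good_base0 L hi⟩, rfl⟩

end

end V11196.MA
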