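import Pool.Agent.V11196.MA.Lift

/-! The space `ω₁` has metric analogs but is not quasimetrizable. -/

open Set Filter Topology

universe u v

namespace V11196.MA

noncomputable section

/-- the set of countable ordinals -/
def W1 : Type := (Cardinal.aleph 1).ord.ToType

instance : LinearOrder W1 := inferInstanceAs (LinearOrder (Cardinal.aleph 1).ord.ToType)

instance : WellFoundedLT W1 := inferInstanceAs (WellFoundedLT (Cardinal.aleph 1).ord.ToType)

instance : TopologicalSpace W1 := Preorder.topology W1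

instance : OrderTopology W1 := ⟨rfl⟩

lemma W1_countable_Iic (a : W1) : (Iic a).Countable := by
  have h1 : (Iio a).Countable := by
    rw [Cardinal.countable_iff_lt_aleph_one]
    exact Cardinal.mk_Iio_toType_ord_lt a
  have h2 : Iic a = insert a (Iio a) := (Iio_insert).symm
  rw [h2]
  exact h1.insert a

lemma W1_not_countable : ¬ (univ : Set W1).Countable := by
  rw [Cardinal.countable_iff_lt_aleph_one, Cardinal.mk_univ]
  have : Cardinal.mk W1 = Cardinal.aleph 1 := Cardinal.mk_ord_toType _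
  rw [this]
  exact lt_irrefl _

lemma W1_bdd {s : Set W1} (hs : s.Countable) : ∃ b, ∀ a ∈ s, a < b := by
  by_contra hcon
  push Not at hcon
  apply W1_not_countable
  have h1 : (⋃ a ∈ s, Iic a).Countable := hs.biUnion fun a _ => W1_countable_Iic a
  apply h1.mono
  intro b _
  obtain ⟨a, ha, hab⟩ := hcon b
  exact mem_biUnion ha hab

/-- least upper bounds of sequences without maximum -/
lemma W1_sup (x : ℕ → W1) : ∃ b, (∀ k, x k < b) ∧ ∀ c < b, ∃ k, c ≤ x k := by
  obtain ⟨b, hb⟩ := W1_bdd (countable_range x)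
  have hne : {b | ∀ k, x k < b}.Nonempty := ⟨b, fun k => hb _ ⟨k, rfl⟩⟩
  refine ⟨wellFounded_lt.min _ hne, wellFounded_lt.min_mem _ hne, ?_⟩
  intro c hc
  by_contra hcon
  push Not at hcon
  exact wellFounded_lt.not_lt_min _ (show c ∈ {b | ∀ k, x k < b} from hcon) hc

lemma W1_isOpen_Iic (a : W1) : IsOpen (Iic a) := by
  obtain ⟨b, hb⟩ := W1_bdd (countable_singleton a)
  have hne : (Ioi a).Nonempty := ⟨b, hb a rfl⟩
  have h1 : Iic a = Iio (wellFounded_lt.min _ hne) := by
    ext c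
    constructor
    · intro hc
      exact lt_of_le_of_lt (mem_Iic.mp hc) (mem_Ioi.mp (wellFounded_lt.min_mem _ hne))
    · intro hc
      by_contra hcon
      rw [mem_Iic, not_le] at hcon
      exact wellFounded_lt.not_lt_min _ (mem_Ioi.mpr hcon) hc
  rw [h1]
  exact isOpen_Iio

instance (a : W1) : Countable (Iic a) := (W1_countable_Iic a).to_subtype

/-- a metric on the countable initial segments -/
def segMetric (a : W1) : MetricSpace (Iic a) :=
  haveI : TopologicalSpace.MetrizableSpace (Iic a) :=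
    TopologicalSpace.metrizableSpace_of_t3_secondCountable _
  TopologicalSpace.metrizableSpaceMetric (Iic a)

open Classical in
/-- the local metrics -/
def dd (a x y : W1) : ℝ :=
  if h : x ≤ a ∧ y ≤ a then (segMetric a).dist ⟨x, h.1⟩ ⟨y, h.2⟩ else 0

lemma dd_eq {a x y : W1} (hx : x ≤ a) (hy : y ≤ a) :
    dd a x y = (segMetric a).dist ⟨x, hx⟩ ⟨y, hy⟩ := by
  unfold dd
  rw [dif_pos ⟨hx, hy⟩]

/-- `ω₁` is locally metrizable -/
def LQ1 : LQ W1 W1 where
  U := Iic
  d := dd
  isOpen := W1_isOpen_Iic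
  cover := fun x => ⟨x, mem_Iic.mpr le_rfl⟩
  nonneg := by
    intro a x y
    unfold dd
    split_ifs
    · letI := segMetric a
      exact dist_nonneg
    · exact le_rfl
  self := by
    intro a x
    unfold dd
    split_ifs
    · letI := segMetric a
      exact dist_self _
    · rfl
  triangle := by
    intro a x y z hx hy hz
    rw [dd_eq hx hz, dd_eq hx hy, dd_eq hy hz]
    letI := segMetric a
    exact dist_triangle _ _ _
  nhd := by
    intro a x hx r hr
    letI := segMetric a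
    have h1 : {y | y ∈ Iic a ∧ dd a x y < r} = Subtype.val '' (Metric.ball (⟨x, hx⟩ : Iic a) r) := by
      ext y
      constructor
      · rintro ⟨hy, hd⟩
        rw [dd_eq hx hy] at hd
        refine ⟨⟨y, hy⟩, ?_, rfl⟩
        rw [Metric.mem_ball, dist_comm]
        exact hd
      · rintro ⟨⟨z, hz⟩, hd, rfl⟩
        refine ⟨hz, ?_⟩
        rw [dd_eq hx hz]
        rw [Metric.mem_ball, dist_comm] at hd
        exact hd
    rw [h1]
    have h2 : IsOpen (Subtype.val '' (Metric.ball (⟨x, hx⟩ : Iic a) r)) :=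
      (W1_isOpen_Iic a).isOpenEmbedding_subtypeVal.isOpenMap _ Metric.isOpen_ball
    exact h2.mem_nhds ⟨⟨x, hx⟩, Metric.mem_ball_self hr, rfl⟩
  base := by
    intro a x hx V hV
    letI := segMetric a
    have h1 : (Subtype.val ⁻¹' V : Set (Iic a)) ∈ 𝓝 (⟨x, hx⟩ : Iic a) :=
      continuous_subtype_val.continuousAt.preimage_mem_nhds hV
    obtain ⟨r, hr, hball⟩ := Metric.mem_nhds_iff.mp h1
    refine ⟨r, hr, ?_⟩
    rintro y ⟨hy, hd⟩
    rw [dd_eq hx hy] at hd
    have h2 : (⟨y, hy⟩ : Iic a) ∈ Metric.ball (⟨x, hx⟩ : Iic a) r := by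
      rw [Metric.mem_ball, dist_comm]
      exact hd
    exact hball h2

theorem W1_analog (x₀ : W1) : HasMetricAnalog.{0, v} W1 x₀ :=
  hasMetricAnalog_of_LQ LQ1 x₀

/-- from a quasimetric to neighbourhood facts -/
lemma quasi_facts {X : Type u} [TopologicalSpace X] {d : X → X → ℝ} (hd : IsQuasimetric d)
    (hb : TopologicalSpace.IsTopologicalBasis {B : Set X | ∃ x r, 0 < r ∧ B = {y | d x y < r}}) :
    (∀ x r, 0 < r → {y | d x y < r} ∈ 𝓝 x) ∧
      ∀ x, ∀ V ∈ 𝓝 x, ∃ r > 0, {y | d x y < r} ⊆ V := by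
  constructor
  · intro x r hr
    exact (hb.isOpen ⟨x, r, hr, rfl⟩).mem_nhds (by simp [hd.self, hr])
  · intro x V hV
    obtain ⟨B, ⟨z, r, hr, rfl⟩, hx, hBV⟩ := hb.mem_nhds_iff.mp hV
    refine ⟨r - d z x, sub_pos.mpr hx, fun y hy => hBV ?_⟩
    have h1 := hd.triangle z x y
    have h2 : d x y < r - d z x := hy
    change d z y < r
    linarith

theorem W1_not_quasi : ¬ Quasimetrizable W1 := by
  rintro ⟨d, hd, hb⟩
  obtain ⟨hnhd, hbase⟩ := quasi_facts hd hb
  let g : ℕ → W1 → Set W1 := fun n x => {y | d x y < rr n}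
  have hgn : ∀ n x, g n x ∈ 𝓝 x := fun n x => hnhd x (rr n) (rr_pos n)
  have hgt : ∀ n x y, y ∈ g (n + 1) x → g (n + 1) y ⊆ g n x := by
    intro n x y hy z hz
    have h1 := hd.triangle x y z
    have h2 : d x y < rr (n + 1) := hy
    have h3 : d y z < rr (n + 1) := hz
    have h4 : rr (n + 1) + rr (n + 1) = rr n := by unfold rr; ring
    change d x z < rr n
    linarith
  -- first claim
  have claim1 : ∀ n, ∃ β, ∀ γ, ∃ l, γ < l ∧ β < l ∧ Ioc β l ⊆ g n l := by
    intro n
    by_contra hcon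
    push Not at hcon
    choose φ hφ using hcon
    have hψ : ∀ b, ∃ c, b < c ∧ ∀ β ≤ b, φ β < c := by
      intro b
      obtain ⟨c, hc⟩ := W1_bdd (((W1_countable_Iic b).image φ).insert b)
      exact ⟨c, hc b (mem_insert _ _), fun β hβ => hc _ (mem_insert_of_mem _ ⟨β, hβ, rfl⟩)⟩
    choose ψ hψ1 hψ2 using hψ
    obtain ⟨w0, -⟩ := W1_bdd (countable_empty (α := W1))
    obtain ⟨l, hl1, hl2⟩ := W1_sup (fun k => ψ^[k] w0)
    obtain ⟨β, hβ, hβs⟩ := exists_Ioc_subset_of_mem_nhds (hgn n l) ⟨_, hl1 0⟩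
    obtain ⟨k, hk⟩ := hl2 β hβ
    have h1 : φ β < l := by
      have h2 := hψ2 (ψ^[k] w0) β hk
      have h3 := hl1 (k + 1)
      simp only [Function.iterate_succ_apply'] at h3
      exact h2.trans h3
    exact hφ β l h1 hβ hβs
  choose βn hβn using claim1
  obtain ⟨β, hβ⟩ := W1_bdd (countable_range βn)
  have claim2 : ∀ n γ, ∃ l, γ < l ∧ β < l ∧ Ioc β l ⊆ g n l := by
    intro n γ
    obtain ⟨l, h1, h2, h3⟩ := hβn n (max γ β)
    refine ⟨l, (le_max_left _ _).trans_lt h1, (le_max_right _ _).trans_lt h1, ?_⟩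
    intro z hz
    exact h3 ⟨(hβ _ ⟨n, rfl⟩).trans hz.1, hz.2⟩
  choose l hl1 hl2 hl3 using claim2
  have hψ : ∀ b, ∃ c, b < c ∧ ∀ n, l n b < c := by
    intro b
    obtain ⟨c, hc⟩ := W1_bdd ((countable_range (fun n => l n b)).insert b)
    exact ⟨c, hc b (mem_insert _ _), fun n => hc _ (mem_insert_of_mem _ ⟨n, rfl⟩)⟩
  choose ψ hψ1 hψ2 using hψ
  obtain ⟨x, hx1, hx2⟩ := W1_sup (fun k => ψ^[k] β)
  -- the least element above `β`
  have hne : (Ioi β).Nonempty := ⟨x, hx1 0⟩
  set z := wellFounded_lt.min _ hne with hz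
  have hzβ : β < z := wellFounded_lt.min_mem _ hne
  have hzle : ∀ c, β < c → z ≤ c := by
    intro c hc
    by_contra hcon
    push Not at hcon
    exact wellFounded_lt.not_lt_min _ (show c ∈ Ioi β from hc) hcon
  have hkey : ∀ n, z ∈ g n x ∧ z < x := by
    intro n
    obtain ⟨γ, hγ, hγs⟩ := exists_Ioc_subset_of_mem_nhds (hgn (n + 1) x) ⟨_, hx1 0⟩
    obtain ⟨k, hk⟩ := hx2 γ hγ
    set m := l (n + 1) (ψ^[k] β) with hm
    have hm1 : ψ^[k] β < m := hl1 _ _
    have hm2 : m < x := by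
      have h2 := hψ2 (ψ^[k] β) (n + 1)
      have h3 := hx1 (k + 1)
      simp only [Function.iterate_succ_apply'] at h3
      exact h2.trans h3
    have hm3 : m ∈ g (n + 1) x := hγs ⟨hk.trans_lt hm1, hm2.le⟩
    have hm4 : β < m := hl2 _ _
    have hzm : z ≤ m := hzle m hm4
    exact ⟨hgt n x m hm3 (hl3 _ _ ⟨hzβ, hzm⟩), hzm.trans_lt hm2⟩
  -- `z ≠ x`, so some ball excludes `z`
  have hV : {z}ᶜ ∈ 𝓝 x := by
    apply isOpen_compl_singleton.mem_nhds
    rw [mem_compl_iff, mem_singleton_iff]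
    exact ((hkey 0).2).ne'
  obtain ⟨r, hr, hrV⟩ := hbase x _ hV
  obtain ⟨n, hn⟩ := exists_rr_lt hr
  have h1 : z ∈ ({z}ᶜ : Set W1) := hrV (show d x z < r from lt_trans (hkey n).1 hn)
  exact h1 rfl

/-- quasimetrizable `T₀` spaces have metric analogs -/
theorem hasMetricAnalog_of_quasi (X : Type u) [TopologicalSpace X] [T0Space X]
    (h : Quasimetrizable X) (x₀ : X) : HasMetricAnalog.{u, v} X x₀ := by
  obtain ⟨d, hd, hb⟩ := h
  obtain ⟨hnhd, hbase⟩ := quasi_facts hd hb
  let L : LQ X PUnit.{u + 1} :=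
    { U := fun _ => univ
      d := fun _ => d
      isOpen := fun _ => isOpen_univ
      cover := fun _ => ⟨PUnit.unit, mem_univ _⟩
      nonneg := fun _ => hd.nonneg
      self := fun _ => hd.self
      triangle := fun _ x y z _ _ _ => hd.triangle x y z
      nhd := fun _ x _ r hr => by simpa using hnhd x r hr
      base := fun _ x _ V hV => by simpa using hbase x V hV }
  exact hasMetricAnalog_of_LQ L x₀

end

end V11196.MA
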